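import Mathlib

/-!
The truncated very-well-poised series `S(p)` is perturbed to
`F(Y) = ∑_{k ≤ n} (6k-1) ∏_{j<k} (3j-1)(2j+1)((3j-1)²-Y) / ((6j+1)(j+1)(9(j+1)²-Y))`,
`n = (p+1)/3`, so that `S(p) = F(0)`.  One has `F(p²) = p` exactly (a terminating case of
Dougall's summation, proved below by a WZ argument), and clearing denominators the numerator
of `F` is a polynomial in `Y` all of whose coefficients are divisible by `p`, because modulo `p` it is
antisymmetric under `k ↦ n-k`.  Hence `F(0) - F(p²)` is divisible by `p·p²`.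
-/

set_option autoImplicit false

open Finset

namespace Pool.Agent.Results.MP_e70f96_nt.Supercongruence

/-- The exact summation: the term products. -/
def T (c : ℚ) (n : ℕ) (k : ℕ) : ℚ :=
  ∏ j ∈ range k, ((-1/3 + j) * (j - n) * (c + j) * (1/2 + j)) /
    ((1 + j) * (2/3 + n + j) * (2/3 - c + j) * (1/6 + j))

theorem T_succ (c : ℚ) (n k : ℕ) : T c n (k+1) = T c n k *
    (((-1/3 + k) * (k - n) * (c + k) * (1/2 + k)) /
    ((1 + k) * (2/3 + n + k) * (2/3 - c + k) * (1/6 + k))) := by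
  unfold T
  rw [prod_range_succ]

theorem T_rel (c : ℚ) (hc : ∀ j : ℕ, 2/3 - c + (j : ℚ) ≠ 0) (n k : ℕ) :
    T c n k * ((n + 1) * (2/3 + n)) = T c (n+1) k * ((n + 1 - k) * (2/3 + n + k)) := by
  induction k with
  | zero => simp [T]
  | succ k ih =>
    rw [T_succ, T_succ]
    have h1 : (1 + (k:ℚ)) ≠ 0 := by positivity
    have h2 : (2/3 + (n:ℚ) + k) ≠ 0 := by positivity
    have h3 := hc k
    have h4 : (1/6 + (k:ℚ)) ≠ 0 := by positivity
    have h5 : (2/3 + (n:ℚ) + 1 + k) ≠ 0 := by positivity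
    have h6 : (2/3 + ((n+1 : ℕ):ℚ) + k) ≠ 0 := by positivity
    have key : T c n k * (((-1/3 + k) * (k - n) * (c + k) * (1/2 + k)) /
        ((1 + k) * (2/3 + n + k) * (2/3 - c + k) * (1/6 + k))) * ((n + 1) * (2/3 + n))
        = (T c n k * ((n + 1) * (2/3 + n))) * (((-1/3 + k) * (k - n) * (c + k) * (1/2 + k)) /
        ((1 + k) * (2/3 + n + k) * (2/3 - c + k) * (1/6 + k))) := by ring
    rw [key, ih]
    push_cast
    push_cast at h6
    field_simp
    ring

theorem T_zero_of_lt (c : ℚ) (n k : ℕ) (h : n < k) : T c n k = 0 := by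
  unfold T
  apply prod_eq_zero (i := n) (by simpa using h)
  simp

/-- the WZ mate -/
def G (c : ℚ) (n k : ℕ) : ℚ :=
  3 * k * (k - 1/3 - c) * (k - 5/6) * (2/3 + n + k) / (n + 1) * T c (n+1) k

theorem wz (c : ℚ) (hc : ∀ j : ℕ, 2/3 - c + (j : ℚ) ≠ 0) (n k : ℕ) :
    (2/3 - c + n) * (1/6 + n) * ((1 - 6 * k) * T c (n+1) k)
      - (2/3 + n) * (1/6 - c + n) * ((1 - 6 * k) * T c n k) = G c n (k+1) - G c n k := by
  have hrel := T_rel c hc n k
  have hn : ((n:ℚ) + 1) ≠ 0 := by positivity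
  have hn2 : (2/3 + (n:ℚ)) ≠ 0 := by positivity
  have e1 : T c n k = T c (n+1) k * ((n + 1 - k) * (2/3 + n + k)) / ((n + 1) * (2/3 + n)) := by
    rw [← hrel]; field_simp
  rw [e1]
  unfold G
  rw [T_succ]
  have h1 : (1 + (k:ℚ)) ≠ 0 := by positivity
  have h3 := hc k
  have h4 : (1/6 + (k:ℚ)) ≠ 0 := by positivity
  have h6 : (2/3 + ((n:ℚ)+1) + k) ≠ 0 := by positivity
  have h8 : (2:ℚ) - 3 * c + 3 * k ≠ 0 := fun h => h3 (by linarith)
  have e2 : 3 * ((k:ℚ) + 1) * ((k:ℚ) + 1 - 1/3 - c) * ((k:ℚ) + 1 - 5/6) * (2/3 + n + ((k:ℚ) + 1)) / (n + 1) *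
      (T c (n+1) k * (((-1/3 + k) * (k - (n+1)) * (c + k) * (1/2 + k)) /
      ((1 + k) * (2/3 + (n+1) + k) * (2/3 - c + k) * (1/6 + k))))
      = 3 * (-1/3 + k) * (k - (n+1)) * (c + k) * (1/2 + k) / (n + 1) * T c (n+1) k := by
    have a1 : ((k:ℚ) + 1 - 1/3 - c) = 2/3 - c + k := by ring
    have a2 : ((k:ℚ) + 1 - 5/6) = 1/6 + k := by ring
    have a3 : (2/3 + (n:ℚ) + ((k:ℚ) + 1)) = 2/3 + (n+1) + k := by ring
    have a4 : ((k:ℚ) + 1) = 1 + k := by ring
    rw [a1, a2, a3, a4]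
    generalize (2/3 - c + (k:ℚ)) = u at *
    generalize (1/6 + (k:ℚ)) = v at *
    generalize (2/3 + ((n:ℚ)+1) + k) = w at *
    generalize (1 + (k:ℚ)) = x at *
    field_simp
  push_cast
  rw [e2]
  field_simp
  ring

theorem sum_rec (c : ℚ) (hc : ∀ j : ℕ, 2/3 - c + (j : ℚ) ≠ 0) (n : ℕ) :
    (2/3 - c + n) * (1/6 + n) * (∑ k ∈ range (n+2), (1 - 6 * (k:ℚ)) * T c (n+1) k)
      = (2/3 + n) * (1/6 - c + n) * (∑ k ∈ range (n+1), (1 - 6 * (k:ℚ)) * T c n k) := by
  have h := sum_range_sub (G c n) (n+2)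
  have h0 : G c n 0 = 0 := by simp [G]
  have h1 : G c n (n+2) = 0 := by
    unfold G
    rw [T_zero_of_lt c (n+1) (n+2) (by omega)]
    simp
  rw [h0, h1, sub_zero] at h
  rw [← sum_congr rfl (fun k _ => wz c hc n k), sum_sub_distrib, ← mul_sum, ← mul_sum] at h
  rw [sum_range_succ (fun k : ℕ => (1 - 6 * (k:ℚ)) * T c n k) (n+1),
    T_zero_of_lt c n (n+1) (by omega)] at h
  linear_combination h

theorem sum_closed (c : ℚ) (hc : ∀ j : ℕ, 2/3 - c + (j : ℚ) ≠ 0) (n : ℕ) :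
    (∑ k ∈ range (n+1), (1 - 6 * (k:ℚ)) * T c n k)
      = ∏ j ∈ range n, ((2/3 + j) * (1/6 - c + j)) / ((2/3 - c + j) * (1/6 + j)) := by
  induction n with
  | zero => simp [T]
  | succ n ih =>
    rw [prod_range_succ, ← ih]
    have h := sum_rec c hc n
    have h3 := hc n
    have h4 : (1/6 + (n:ℚ)) ≠ 0 := by positivity
    rw [mul_div_assoc', eq_div_iff (mul_ne_zero h3 h4)]
    linear_combination h

theorem hcN (N : ℕ) : ∀ j : ℕ, 2/3 - ((N:ℚ) - 2/3) + (j : ℚ) ≠ 0 := by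
  intro j h
  have h1 : (4 : ℚ) + 3 * j = 3 * N := by linarith
  have h2 : (4 : ℤ) + 3 * j = 3 * N := by exact_mod_cast h1
  omega

theorem prod_eval (N : ℕ) (hN : 1 ≤ N) :
    ∏ j ∈ range N, ((2/3 + (j:ℚ)) * (1/6 - ((N:ℚ) - 2/3) + j)) /
      ((2/3 - ((N:ℚ) - 2/3) + j) * (1/6 + j)) = 1 - 3 * (N : ℚ) := by
  have hA : ∏ j ∈ range N, (2/3 - ((N:ℚ) - 2/3) + j) = ∏ j ∈ range N, (1/3 - (j:ℚ)) := by
    rw [← prod_range_reflect]
    apply prod_congr rfl
    intro j hj
    have hj' : j < N := by simpa using hj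
    have : ((N - 1 - j : ℕ) : ℚ) = N - 1 - j := by
      rw [Nat.cast_sub (by omega), Nat.cast_sub (by omega)]; simp
    rw [this]; ring
  have hB : ∏ j ∈ range N, (1/6 - ((N:ℚ) - 2/3) + j) = ∏ j ∈ range N, (-(1/6 + (j:ℚ))) := by
    rw [← prod_range_reflect]
    apply prod_congr rfl
    intro j hj
    have hj' : j < N := by simpa using hj
    have : ((N - 1 - j : ℕ) : ℚ) = N - 1 - j := by
      rw [Nat.cast_sub (by omega), Nat.cast_sub (by omega)]; simp
    rw [this]; ring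
  rw [prod_div_distrib, prod_mul_distrib, prod_mul_distrib, hA, hB, ← prod_mul_distrib,
    ← prod_mul_distrib, ← prod_div_distrib]
  have hC : ∀ M : ℕ, 1 ≤ M → ∏ j ∈ range M, ((2/3 + (j:ℚ)) * -(1/6 + (j:ℚ))) /
      ((1/3 - (j:ℚ)) * (1/6 + j)) = 1 - 3 * (M : ℚ) := by
    intro M hM
    induction M, hM using Nat.le_induction with
    | base => norm_num
    | succ M hM ih =>
      rw [prod_range_succ, ih]
      have h1 : (1/6 + (M:ℚ)) ≠ 0 := by positivity
      have h2 : (1/3 - (M:ℚ)) ≠ 0 := by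
        have : (1:ℚ) ≤ M := by exact_mod_cast hM
        intro h; linarith
      have h3 : (1 - 3 * (M:ℚ)) ≠ 0 := by
        have : (1:ℚ) ≤ M := by exact_mod_cast hM
        intro h; linarith
      push_cast
      field_simp
      ring
  exact hC N hN

open Polynomial in
/-- numerator factor -/
noncomputable def a (j : ℕ) : Polynomial ℤ :=
  C ((3 * (j:ℤ) - 1) * (2 * j + 1)) * (C ((3 * (j:ℤ) - 1)^2) - X)

open Polynomial in
/-- denominator factor -/
noncomputable def b (j : ℕ) : Polynomial ℤ :=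
  C ((6 * (j:ℤ) + 1) * (j + 1)) * (C (9 * ((j:ℤ) + 1)^2) - X)

/-- Numerator polynomial. -/
noncomputable def Num (n : ℕ) : Polynomial ℤ :=
  ∑ k ∈ range (n+1), Polynomial.C (6 * (k:ℤ) - 1) * ((∏ j ∈ range k, a j) * ∏ j ∈ Ico k n, b j)

/-- Denominator polynomial. -/
noncomputable def Den (n : ℕ) : Polynomial ℤ := ∏ j ∈ range n, b j

open Polynomial in
theorem Num_map (n p : ℕ) [hpf : Fact p.Prime] (h2 : p ≠ 2) (hp : p + 1 = 3 * n) :
    (Num n).map (Int.castRingHom (ZMod p)) = 0 := by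
  have h3n : (3 : ZMod p) * n = 1 := by
    have : ((3 * n : ℕ) : ZMod p) = ((p + 1 : ℕ) : ZMod p) := by rw [hp]
    push_cast at this
    simpa using this
  let P : ℕ → Polynomial (ZMod p) := fun m => ∏ j ∈ range m,
    (C (-3 * ((n : ZMod p) - j) * (2 * j + 1)) * (C (9 * ((n : ZMod p) - j)^2) - X))
  have ha : ∀ k, (∏ j ∈ range k, a j).map (Int.castRingHom (ZMod p)) = P k := by
    intro k
    rw [Polynomial.map_prod]
    apply prod_congr rfl
    intro j _
    have e1 : (3 * (j : ZMod p) - 1) = -3 * ((n : ZMod p) - j) := by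
      linear_combination h3n
    have e2 : (3 * (j : ZMod p) - 1)^2 = 9 * ((n : ZMod p) - j)^2 := by rw [e1]; ring
    simp only [a, Polynomial.map_mul, Polynomial.map_sub, Polynomial.map_C, Polynomial.map_X,
      Int.coe_castRingHom]
    push_cast
    rw [e2, e1]
  have hb : ∀ k, k ≤ n → (∏ j ∈ Ico k n, b j).map (Int.castRingHom (ZMod p)) = P (n - k) := by
    intro k hk
    rw [Polynomial.map_prod, prod_Ico_eq_prod_range, ← prod_range_reflect]
    apply prod_congr rfl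
    intro i hi
    have hi' : i < n - k := by simpa using hi
    have e0 : k + (n - k - 1 - i) = n - 1 - i := by omega
    rw [e0]
    have e3 : ((n - 1 - i : ℕ) : ZMod p) = n - 1 - i := by
      rw [Nat.cast_sub (by omega), Nat.cast_sub (by omega)]; simp
    simp only [b, Polynomial.map_mul, Polynomial.map_sub, Polynomial.map_C, Polynomial.map_X,
      Int.coe_castRingHom]
    push_cast
    rw [e3]
    have e4 : (6 * ((n : ZMod p) - 1 - i) + 1) * (n - 1 - i + 1) = -3 * ((n : ZMod p) - i) * (2 * i + 1) := by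
      linear_combination (2 * ((n : ZMod p) - i)) * h3n
    have e5 : (9 * ((n : ZMod p) - 1 - i + 1)^2) = 9 * ((n : ZMod p) - i)^2 := by ring
    rw [e4, e5]
  have hN : (Num n).map (Int.castRingHom (ZMod p)) =
      ∑ k ∈ range (n+1), C (6 * (k : ZMod p) - 1) * (P k * P (n - k)) := by
    unfold Num
    rw [Polynomial.map_sum]
    apply sum_congr rfl
    intro k hk
    have hk' : k ≤ n := by
      have := mem_range.1 hk; omega
    rw [Polynomial.map_mul, Polynomial.map_mul, ha, hb k hk', Polynomial.map_C]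
    simp
  have hanti : ∑ k ∈ range (n+1), C (6 * (k : ZMod p) - 1) * (P k * P (n - k)) =
      - ∑ k ∈ range (n+1), C (6 * (k : ZMod p) - 1) * (P k * P (n - k)) := by
    conv_lhs => rw [← sum_range_reflect]
    rw [← sum_neg_distrib]
    apply sum_congr rfl
    intro k hk
    have hk' : k ≤ n := by
      have := mem_range.1 hk; omega
    have e1 : n + 1 - 1 - k = n - k := by omega
    have e2 : n - (n - k) = k := by omega
    rw [e1, e2, Nat.cast_sub hk']
    have e3 : (6 * ((n : ZMod p) - k) - 1) = - (6 * (k : ZMod p) - 1) := by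
      linear_combination (2 : ZMod p) * h3n
    rw [e3, C_neg]
    ring
  rw [hN]
  set Z := ∑ k ∈ range (n+1), C (6 * (k : ZMod p) - 1) * (P k * P (n - k)) with hZ
  have h2Z : (C (2 : ZMod p)) * Z = 0 := by
    have : (C (2 : ZMod p)) * Z = Z + Z := by
      rw [show (2 : ZMod p) = 1 + 1 by norm_num, C_add, C_1]; ring
    rw [this]
    nth_rewrite 1 [hanti]
    ring
  rcases mul_eq_zero.1 h2Z with h | h
  · exfalso
    have h' : (2 : ZMod p) = 0 := by simpa using h
    have h'' : ((2 : ℕ) : ZMod p) = 0 := by exact_mod_cast h'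
    rw [ZMod.natCast_eq_zero_iff] at h''
    have := (Nat.prime_dvd_prime_iff_eq hpf.out Nat.prime_two).1 h''
    exact h2 this
  · exact h

theorem cong (n p : ℕ) [hpf : Fact p.Prime] (h2 : p ≠ 2) (hp : p + 1 = 3 * n) :
    (p:ℤ)^3 ∣ (Num n).eval 0 * (Den n).eval ((p:ℤ)^2) - (Num n).eval ((p:ℤ)^2) * (Den n).eval 0 := by
  have hmap := Num_map n p h2 hp
  have hdvd : Polynomial.C (p:ℤ) ∣ Num n := by
    rw [Polynomial.C_dvd_iff_dvd_coeff]
    intro i
    have := congrArg (fun q => q.coeff i) hmap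
    simp only [Polynomial.coeff_map, Int.coe_castRingHom, Polynomial.coeff_zero] at this
    exact (ZMod.intCast_zmod_eq_zero_iff_dvd _ _).1 this
  obtain ⟨M, hM⟩ := hdvd
  have h := Polynomial.sub_dvd_eval_sub ((p:ℤ)^2) 0
    (Polynomial.C (M.eval 0) * Den n - M * Polynomial.C ((Den n).eval 0))
  simp only [Polynomial.eval_sub, Polynomial.eval_mul, Polynomial.eval_C, sub_self, sub_zero] at h
  rw [hM]
  simp only [Polynomial.eval_mul, Polynomial.eval_C]
  obtain ⟨z, hz⟩ := h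
  exact ⟨z, by linear_combination (p:ℤ) * hz⟩

theorem link (n : ℕ) (Y : ℤ) (hY : ∀ j < n, (b j).eval Y ≠ 0) :
    ∑ k ∈ range (n+1), (6 * (k:ℚ) - 1) * ∏ j ∈ range k, (((a j).eval Y : ℤ) : ℚ) / (((b j).eval Y : ℤ) : ℚ)
      = (((Num n).eval Y : ℤ) : ℚ) / (((Den n).eval Y : ℤ) : ℚ) := by
  have hD : (((Den n).eval Y : ℤ) : ℚ) ≠ 0 := by
    unfold Den
    rw [Polynomial.eval_prod]
    push_cast
    rw [prod_ne_zero_iff]
    intro j hj
    exact_mod_cast hY j (by simpa using hj)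
  rw [eq_div_iff hD, sum_mul]
  unfold Num
  rw [Polynomial.eval_finsetSum]
  push_cast
  apply sum_congr rfl
  intro k hk
  have hk' : k ≤ n := by
    have := mem_range.1 hk; omega
  unfold Den
  rw [Polynomial.eval_mul, Polynomial.eval_mul, Polynomial.eval_C, Polynomial.eval_prod,
    Polynomial.eval_prod, Polynomial.eval_prod, ← prod_range_mul_prod_Ico _ hk', prod_div_distrib]
  push_cast
  have hB : (∏ j ∈ range k, (((b j).eval Y : ℤ) : ℚ)) ≠ 0 := by
    rw [prod_ne_zero_iff]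
    intro j hj
    have hj' : j < k := by simpa using hj
    exact_mod_cast hY j (by omega)
  field_simp

theorem term_zero (k : ℕ) :
    ((ascPochhammer ℚ k).eval (-1/3))^4 * ((2 * k).factorial : ℚ) /
      ((k.factorial : ℚ)^4 * (ascPochhammer ℚ (2 * k)).eval (-2/3)) =
    ∏ j ∈ range k, (((a j).eval 0 : ℤ) : ℚ) / (((b j).eval 0 : ℤ) : ℚ) := by
  induction k with
  | zero => simp
  | succ k ih =>
    rw [prod_range_succ, ← ih]
    have e1 : (2 * (k + 1)) = 2 * k + 1 + 1 := by ring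
    rw [e1, ascPochhammer_succ_eval, ascPochhammer_succ_eval, ascPochhammer_succ_eval,
      Nat.factorial_succ, Nat.factorial_succ, Nat.factorial_succ]
    simp only [a, b, Polynomial.eval_mul, Polynomial.eval_sub, Polynomial.eval_C, Polynomial.eval_X]
    push_cast
    have h1 : (-1/3 + (k:ℚ)) ≠ 0 := by
      intro h
      have h1 : (3 : ℚ) * k = 1 := by linarith
      have h2 : (3 : ℤ) * k = 1 := by exact_mod_cast h1
      omega
    have h2 : (-2/3 + (2 * (k:ℚ))) ≠ 0 := by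
      intro h; apply h1; linarith
    have h3 : (-2/3 + (2 * (k:ℚ) + 1)) ≠ 0 := by
      have : (0:ℚ) ≤ k := by positivity
      intro h; linarith
    have h4 : (6 * (k:ℚ) + 1) ≠ 0 := by positivity
    have h5 : ((k:ℚ) + 1) ≠ 0 := by positivity
    have h6 : ((k.factorial : ℚ)) ≠ 0 := by positivity
    have h7 : ∀ m : ℕ, (ascPochhammer ℚ m).eval (-2/3 : ℚ) ≠ 0 := by
      intro m
      induction m with
      | zero => simp
      | succ m ihm =>
        rw [ascPochhammer_succ_eval]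
        refine mul_ne_zero ihm ?_
        intro h
        have h1 : (3 : ℚ) * m = 2 := by linarith
        have h2 : (3 : ℤ) * m = 2 := by exact_mod_cast h1
        omega
    have h8 := h7 (2 * k)
    generalize (ascPochhammer ℚ (2 * k)).eval (-2/3 : ℚ) = u at *
    generalize (ascPochhammer ℚ k).eval (-1/3 : ℚ) = v at *
    generalize ((2 * k).factorial : ℚ) = f at *
    generalize (k.factorial : ℚ) = g at *
    have h9 : (3 * (k:ℚ) - 1) ≠ 0 := by
      intro h; apply h1; linarith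
    have e2 : (-2/3 + (2 * (k:ℚ))) = 2 * (3 * k - 1) / 3 := by ring
    have e3 : (-2/3 + (2 * (k:ℚ) + 1)) = (6 * k + 1) / 3 := by ring
    have e4 : (-1/3 + (k:ℚ)) = (3 * k - 1) / 3 := by ring
    rw [e2, e3, e4]
    field_simp
    ring

theorem term_sq (n : ℕ) (k : ℕ) :
    T ((n:ℚ) - 2/3) n k =
    ∏ j ∈ range k, (((a j).eval ((3 * (n:ℤ) - 1)^2) : ℤ) : ℚ) / (((b j).eval ((3 * (n:ℤ) - 1)^2) : ℤ) : ℚ) := by
  unfold T
  apply prod_congr rfl
  intro j _
  simp only [a, b, Polynomial.eval_mul, Polynomial.eval_sub, Polynomial.eval_C, Polynomial.eval_X]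
  push_cast
  have h1 : (1 + (j:ℚ)) ≠ 0 := by positivity
  have h2 : (2/3 + (n:ℚ) + j) ≠ 0 := by positivity
  have h3 := hcN n j
  have h4 : (1/6 + (j:ℚ)) ≠ 0 := by positivity
  have e1 : (9 * ((j:ℚ) + 1)^2 - (3 * n - 1)^2) = 9 * (2/3 - (n - 2/3) + j) * (2/3 + (n:ℚ) + j) := by
    ring
  have e2 : (6 * (j:ℚ) + 1) * (j + 1) = 6 * (1 + j) * (1/6 + j) := by ring
  rw [e1, e2]
  generalize hu : (2/3 - ((n:ℚ) - 2/3) + (j:ℚ)) = u at *
  generalize hv : (2/3 + (n:ℚ) + (j:ℚ)) = v at *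
  generalize hw : (1/6 + (j:ℚ)) = w at *
  generalize hx : (1 + (j:ℚ)) = x at *
  field_simp
  ring

/-- For every prime `p ≡ 2 (mod 3)`, the rational number
`S(p) = ∑_{k=0}^{(p+1)/3} (6k-1) (-1/3)_k⁴ (2k)! / (k!⁴ (-2/3)_{2k})` satisfies
`S(p) ≡ p (mod p³)`, i.e. `p` does not divide the reduced denominator of `(S(p) - p)/p³`. -/
theorem result : ∀ p : ℕ, p.Prime → p % 3 = 2 →
    ¬ p ∣ (((∑ k ∈ range ((p + 1) / 3 + 1), (6 * (k:ℚ) - 1) *
      (((ascPochhammer ℚ k).eval (-1/3))^4 * ((2 * k).factorial : ℚ) /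
        ((k.factorial : ℚ)^4 * (ascPochhammer ℚ (2 * k)).eval (-2/3)))) - p) / (p:ℚ)^3).den := by
  intro p hp hp3
  obtain ⟨n, hn⟩ : ∃ n, p + 1 = 3 * n := ⟨(p+1)/3, by omega⟩
  have hn' : (p + 1) / 3 = n := by omega
  have hn1 : 1 ≤ n := by have := hp.two_le; omega
  rw [hn']
  rcases eq_or_ne p 2 with h2 | h2
  · subst h2
    have hn2 : n = 1 := by omega
    subst hn2
    simp only [sum_range_succ, range_zero, sum_empty, ascPochhammer_zero, ascPochhammer_one,
      Polynomial.eval_one, Polynomial.eval_X, mul_zero, mul_one, ascPochhammer_succ_eval]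
    have hv : ((0 + (6 * ((0:ℕ):ℚ) - 1) * (1 ^ 4 * (Nat.factorial 0 : ℚ) / (Nat.factorial 0 : ℚ) ^ 4) +
              (6 * ((1:ℕ):ℚ) - 1) * ((-1 / 3) ^ 4 * (Nat.factorial 2 : ℚ) /
                ((Nat.factorial 1 : ℚ) ^ 4 * (-2 / 3 * (-2 / 3 + ((1:ℕ):ℚ))))) -
            ((2:ℕ):ℚ)) / ((2:ℕ):ℚ) ^ 3) = -4/9 := by
      norm_num [Nat.factorial]
    rw [hv]
    have hd : (-4/9 : ℚ).den = 9 := by norm_num
    rw [hd]
    norm_num
  have : Fact p.Prime := ⟨hp⟩
  have hpn : (p : ℤ) = 3 * (n : ℤ) - 1 := by omega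
  have hpd : ¬ (p : ℤ) ∣ (Den n).eval 0 * (Den n).eval ((p:ℤ)^2) := by
    intro hdvd
    have hprime : Prime (p : ℤ) := Nat.prime_iff_prime_int.1 hp
    have hc : ∀ j < n, ¬ (p:ℤ) ∣ (6 * (j:ℤ) + 1) * (j + 1) := by
      intro j hj h
      rcases hprime.dvd_or_dvd h with h | h
      · obtain ⟨m, hm⟩ := h
        have hm0 : 0 < m := by
          by_contra hcon
          push Not at hcon
          have : (p:ℤ) * m ≤ 0 := mul_nonpos_of_nonneg_of_nonpos (by positivity) hcon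
          omega
        have hm2 : m < 2 := by
          by_contra hcon
          push Not at hcon
          have : (p:ℤ) * 2 ≤ p * m := mul_le_mul_of_nonneg_left hcon (by positivity)
          omega
        have : m = 1 := by omega
        subst this
        omega
      · have := Int.le_of_dvd (by omega) h
        omega
    have hb0 : ∀ j < n, ¬ (p:ℤ) ∣ (b j).eval 0 := by
      intro j hj h
      simp only [b, Polynomial.eval_mul, Polynomial.eval_sub, Polynomial.eval_C, Polynomial.eval_X] at h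
      rcases hprime.dvd_or_dvd h with h | h
      · exact hc j hj h
      · have h' : (p:ℤ) ∣ (3 * ((j:ℤ) + 1)) ^ 2 := by
          have e : (3 * ((j:ℤ) + 1)) ^ 2 = 9 * ((j:ℤ) + 1)^2 - 0 := by ring
          rw [e]; exact h
        have h'' := hprime.dvd_of_dvd_pow h'
        rcases hprime.dvd_or_dvd h'' with h3 | h3
        · have := Int.le_of_dvd (by omega) h3
          have h5 : p ≤ 3 := by omega
          interval_cases p <;> omega
        · exact hc j hj (h3.mul_left _)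
    have hb1 : ∀ j < n, ¬ (p:ℤ) ∣ (b j).eval ((p:ℤ)^2) := by
      intro j hj h
      apply hb0 j hj
      have h6 := Polynomial.sub_dvd_eval_sub ((p:ℤ)^2) 0 (b j)
      have h7 : (p:ℤ) ∣ (b j).eval ((p:ℤ)^2) - (b j).eval 0 :=
        dvd_trans (show (p:ℤ) ∣ (p:ℤ)^2 - 0 from ⟨p, by ring⟩) h6
      exact (dvd_sub_right h).1 h7
    rcases hprime.dvd_or_dvd hdvd with h | h
    · unfold Den at h
      rw [Polynomial.eval_prod] at h
      obtain ⟨j, hj, hj2⟩ := (hprime.dvd_finsetProd_iff _).1 h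
      exact hb0 j (by simpa using hj) hj2
    · unfold Den at h
      rw [Polynomial.eval_prod] at h
      obtain ⟨j, hj, hj2⟩ := (hprime.dvd_finsetProd_iff _).1 h
      exact hb1 j (by simpa using hj) hj2
  have hb : ∀ j < n, (b j).eval 0 ≠ 0 ∧ (b j).eval ((p:ℤ)^2) ≠ 0 := by
    intro j hj
    constructor
    · intro h
      apply hpd
      unfold Den
      rw [Polynomial.eval_prod, Polynomial.eval_prod, prod_eq_zero (i := j) (by simpa using hj) h]
      simp
    · intro h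
      apply hpd
      unfold Den
      rw [Polynomial.eval_prod, Polynomial.eval_prod]
      rw [prod_eq_zero (s := range n) (f := fun j => (b j).eval ((p:ℤ)^2)) (i := j) (by simpa using hj) h]
      simp
  have hS0 := link n 0 (fun j hj => (hb j hj).1)
  have hS1 := link n ((p:ℤ)^2) (fun j hj => (hb j hj).2)
  have hS1' : ∑ k ∈ range (n+1), (6 * (k:ℚ) - 1) * ∏ j ∈ range k,
      (((a j).eval ((p:ℤ)^2) : ℤ) : ℚ) / (((b j).eval ((p:ℤ)^2) : ℤ) : ℚ) = p := by
    have h1 := sum_closed ((n:ℚ) - 2/3) (hcN n) n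
    rw [prod_eval n hn1] at h1
    have h2 : (p:ℚ) = 3 * (n:ℚ) - 1 := by exact_mod_cast hpn
    rw [h2]
    have h3 : ∑ k ∈ range (n+1), (6 * (k:ℚ) - 1) * ∏ j ∈ range k,
      (((a j).eval ((p:ℤ)^2) : ℤ) : ℚ) / (((b j).eval ((p:ℤ)^2) : ℤ) : ℚ)
      = - ∑ k ∈ range (n+1), (1 - 6 * (k:ℚ)) * T ((n:ℚ) - 2/3) n k := by
      rw [← sum_neg_distrib]
      apply sum_congr rfl
      intro k _
      rw [term_sq, hpn]
      ring
    rw [h3, h1]
    ring
  have hS : (∑ k ∈ range (n + 1), (6 * (k:ℚ) - 1) *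
      (((ascPochhammer ℚ k).eval (-1/3))^4 * ((2 * k).factorial : ℚ) /
        ((k.factorial : ℚ)^4 * (ascPochhammer ℚ (2 * k)).eval (-2/3)))) =
        (((Num n).eval 0 : ℤ) : ℚ) / (((Den n).eval 0 : ℤ) : ℚ) := by
    rw [← hS0]
    apply sum_congr rfl
    intro k _
    rw [term_zero]
  rw [hS]
  rw [hS1'] at hS1
  obtain ⟨z, hz⟩ := cong n p h2 hn
  set N0 := (Num n).eval 0
  set N1 := (Num n).eval ((p:ℤ)^2)
  set D0 := (Den n).eval 0
  set D1 := (Den n).eval ((p:ℤ)^2)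
  have hD0 : (D0 : ℚ) ≠ 0 := by
    intro h
    have : D0 = 0 := by exact_mod_cast h
    apply hpd
    rw [this]; simp
  have hD1 : (D1 : ℚ) ≠ 0 := by
    intro h
    have : D1 = 0 := by exact_mod_cast h
    apply hpd
    rw [this]; simp
  have hp0 : (p:ℚ) ≠ 0 := by exact_mod_cast hp.ne_zero
  have hval : ((N0:ℚ) / D0 - p) / (p:ℚ)^3 = (z : ℚ) / ((D0 * D1 : ℤ) : ℚ) := by
    nth_rewrite 1 [hS1]
    have hz' : (N0:ℚ) * D1 - N1 * D0 = p^3 * z := by exact_mod_cast hz
    push_cast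
    field_simp
    linear_combination hz'
  rw [hval]
  intro hdvd
  apply hpd
  have h1 : (((z : ℚ) / ((D0 * D1 : ℤ) : ℚ)).den : ℤ) ∣ (D0 * D1) := by
    rw [← Rat.divInt_eq_div]
    exact Rat.den_dvd z (D0 * D1)
  exact dvd_trans (by exact_mod_cast hdvd) h1

end Pool.Agent.Results.MP_e70f96_nt.Supercongruence
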